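import Pool.Agent.H10.Class

/-!
Norms of elements with even valuations have even valuations.
-/

set_option autoImplicit false

open IsDedekindDomain NumberField nonZeroDivisors UniqueFactorizationMonoid

namespace Pool.Agent.H10.Q

section

variable {K : Type*} [Field K] [NumberField K]

lemma exists_ideal_sq {y : 𝓞 K} (hy : y ≠ 0)
    (hev : ∀ v : HeightOneSpectrum (𝓞 K), Even (multiplicity v.asIdeal (Ideal.span {y}))) :
    ∃ J : Ideal (𝓞 K), J ≠ 0 ∧ J ^ 2 = Ideal.span {y} := by
  classical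
  have hI : Ideal.span {y} ≠ 0 := by
    rw [Ideal.zero_eq_bot, Ne, Ideal.span_singleton_eq_bot]; exact hy
  obtain ⟨u, hu⟩ := Multiset.exists_smul_of_dvd_count (normalizedFactors (Ideal.span {y})) (k := 2)
    (by
      intro P hP
      have hirr := irreducible_of_normalized_factor P hP
      have hpr : Prime P := hirr.prime
      have hev' := hev ⟨P, Ideal.isPrime_of_prime hpr, hpr.ne_zero⟩
      rw [multiplicity_eq_count_normalizedFactors hirr hI, normalize_eq] at hev'
      exact hev'.two_dvd)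
  set J := u.prod with hJ
  have hJ2 : J ^ 2 = Ideal.span {y} := by
    rw [hJ, ← Multiset.prod_nsmul, ← hu]
    exact Ideal.prod_normalizedFactors_eq_self hI
  have hJ0 : J ≠ 0 := by
    intro h
    rw [h] at hJ2
    exact hI (by rw [← hJ2, zero_pow two_ne_zero])
  exact ⟨J, hJ0, hJ2⟩

/-- an element with even valuations is up to squares an integer generating a square -/
lemma exists_int_sq {x : K} (hx : x ≠ 0)
    (hev : ∀ v : HeightOneSpectrum (𝓞 K), Even (WithZero.log (v.valuation K x))) :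
    ∃ (b y : 𝓞 K) (J : Ideal (𝓞 K)), b ≠ 0 ∧ y ≠ 0 ∧ x * (b : K) ^ 2 = (y : K) ∧ J ≠ 0 ∧
      J ^ 2 = Ideal.span {y} := by
  obtain ⟨a, b, hb, rfl⟩ := IsFractionRing.div_surjective (A := 𝓞 K) x
  have hb0 : b ≠ 0 := nonZeroDivisors.ne_zero hb
  have ha0 : a ≠ 0 := by
    rintro rfl
    apply hx
    simp
  have haK : (a : K) ≠ 0 := RingOfIntegers.coe_ne_zero_iff.mpr ha0
  have hbK : (b : K) ≠ 0 := RingOfIntegers.coe_ne_zero_iff.mpr hb0
  obtain ⟨J, hJ0, hJ⟩ := exists_ideal_sq (y := a * b) (mul_ne_zero ha0 hb0) (by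
    intro v
    have h1 := hev v
    have h2 : v.valuation K ((a * b : 𝓞 K) : K) =
        v.valuation K ((a : K) / (b : K)) * v.valuation K (b : K) ^ 2 := by
      rw [← map_pow, ← map_mul]
      congr 1
      push_cast
      field_simp
    have h3 := v.intValuation_eq_exp_neg_multiplicity (mul_ne_zero ha0 hb0)
    rw [← v.valuation_of_algebraMap (K := K)] at h3
    have h4 := congrArg WithZero.log h2
    change WithZero.log (v.valuation K (algebraMap (𝓞 K) K (a * b))) = _ at h4
    rw [h3, WithZero.log_exp, WithZero.log_mul, WithZero.log_pow] at h4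
    · rw [Int.even_iff] at h1
      have h5 : (multiplicity v.asIdeal (Ideal.span {a * b}) : ℤ) % 2 = 0 := by
        change WithZero.log (v.valuation K ((a : K) / (b : K))) % 2 = 0 at h1
        simp only [nsmul_eq_mul, Nat.cast_ofNat] at h4
        omega
      rw [Nat.even_iff]
      omega
    · rw [Valuation.ne_zero_iff]
      exact div_ne_zero haK hbK
    · exact pow_ne_zero _ ((Valuation.ne_zero_iff _).mpr hbK))
  refine ⟨b, a * b, J, hb0, mul_ne_zero ha0 hb0, ?_, hJ0, hJ⟩
  change (a : K) / (b : K) * (b : K) ^ 2 = _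
  push_cast
  field_simp

lemma even_of_span_sq {y : 𝓞 K} (hy : y ≠ 0) {J : Ideal (𝓞 K)} (hJ : J ^ 2 = Ideal.span {y})
    (v : HeightOneSpectrum (𝓞 K)) : Even (WithZero.log (v.valuation K (y : K))) := by
  have hJ0 : J ≠ 0 := by
    intro h
    rw [h, zero_pow two_ne_zero] at hJ
    exact hy (Ideal.span_singleton_eq_bot.mp hJ.symm)
  have h3 := v.intValuation_eq_exp_neg_multiplicity hy
  change Even (WithZero.log (v.valuation K (algebraMap (𝓞 K) K y)))
  rw [v.valuation_of_algebraMap (K := K), h3, WithZero.log_exp, ← hJ,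
    (FiniteMultiplicity.of_prime_left v.prime hJ0).multiplicity_pow v.prime]
  push_cast
  exact ⟨-(multiplicity v.asIdeal J : ℤ), by ring⟩

end

section

variable {K L : Type*} [Field K] [NumberField K] [Field L] [NumberField L] [Algebra K L]

/-- The norm of an element with even valuations has even valuations. -/
theorem norm_even {x : L} (hx : x ≠ 0)
    (hev : ∀ w : HeightOneSpectrum (𝓞 L), Even (WithZero.log (w.valuation L x)))
    (v : HeightOneSpectrum (𝓞 K)) : Even (WithZero.log (v.valuation K (Algebra.norm K x))) := by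
  obtain ⟨b, y, J, hb, hy, hxb, hJ0, hJ⟩ := exists_int_sq hx hev
  have hyN : Algebra.intNorm (𝓞 K) (𝓞 L) y ≠ 0 := by
    rw [Ne, Algebra.intNorm_eq_zero]
    exact hy
  have h1 : (Ideal.relNorm (𝓞 K) J) ^ 2 = Ideal.span {Algebra.intNorm (𝓞 K) (𝓞 L) y} := by
    rw [← map_pow, hJ, Ideal.relNorm_singleton]
  have h2 := even_of_span_sq (K := K) hyN h1 v
  have h3 : ((Algebra.intNorm (𝓞 K) (𝓞 L) y : 𝓞 K) : K) = Algebra.norm K (y : L) :=
    Algebra.algebraMap_intNorm (A := 𝓞 K) (K := K) (L := L) (B := 𝓞 L) y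
  rw [h3, ← hxb, map_mul, map_pow] at h2
  have hNx : Algebra.norm K x ≠ 0 := by rw [Ne, Algebra.norm_eq_zero_iff]; exact hx
  have hbL : (b : L) ≠ 0 := RingOfIntegers.coe_ne_zero_iff.mpr hb
  have hNb : Algebra.norm K (b : L) ≠ 0 := by rw [Ne, Algebra.norm_eq_zero_iff]; exact hbL
  rw [map_mul, map_pow, WithZero.log_mul ((Valuation.ne_zero_iff _).mpr hNx)
    (pow_ne_zero _ ((Valuation.ne_zero_iff _).mpr hNb)), WithZero.log_pow] at h2
  rw [Int.even_iff] at h2 ⊢
  simp only [nsmul_eq_mul, Nat.cast_ofNat] at h2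
  omega

end

end Pool.Agent.H10.Q
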