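import Mathlib

/-!
Quadratic extensions: elements of norm one up to squares; norms of elements of a subextension of odd degree.
-/

set_option autoImplicit false
set_option linter.style.haveILetI false

namespace Pool.Agent.H10.Q

section

variable {F E : Type*} [Field F] [Field E] [Algebra F E]

/-- the quadratic equation of an element -/
lemma quad_rel (h : Module.finrank F E = 2) (u : E) :
    u ^ 2 - algebraMap F E (Algebra.trace F E u) * u + algebraMap F E (Algebra.norm F u) = 0 := by
  haveI : FiniteDimensional F E := Module.finite_of_finrank_pos (by rw [h]; norm_num)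
  let b : Module.Basis (Fin 2) F E := Module.finBasisOfFinrankEq F E h
  apply Algebra.leftMulMatrix_injective b
  have h1 := Matrix.aeval_self_charpoly (Algebra.leftMulMatrix b u)
  rw [Matrix.charpoly_fin_two] at h1
  rw [Algebra.trace_eq_matrix_trace b, Algebra.norm_eq_matrix_det b]
  simp only [map_add, map_sub, map_mul, map_pow, Polynomial.aeval_X, Polynomial.aeval_C,
    AlgHom.commutes, map_zero] at h1 ⊢
  exact h1

/-- elements of norm one are squares up to elements of the base -/
lemma hilb (h : Module.finrank F E = 2) {u : E} (hu : Algebra.norm F u = 1) :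
    ∃ (t : F) (z : E), t ≠ 0 ∧ z ≠ 0 ∧ u = algebraMap F E t * z ^ 2 := by
  by_cases h1 : u = -1
  · refine ⟨-1, 1, by norm_num, one_ne_zero, ?_⟩
    rw [h1, map_neg, map_one]
    ring
  · have h2 := quad_rel h u
    rw [hu, map_one] at h2
    have h3 : (1 + u) ^ 2 = algebraMap F E (Algebra.trace F E u + 2) * u := by
      rw [map_add, map_ofNat]
      linear_combination h2
    have h4 : (1 + u) ≠ 0 := by
      intro h5
      exact h1 (by linear_combination h5)
    have h5 : Algebra.trace F E u + 2 ≠ 0 := by
      intro h6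
      rw [h6, map_zero, zero_mul] at h3
      exact h4 (pow_eq_zero_iff two_ne_zero |>.mp h3)
    refine ⟨(Algebra.trace F E u + 2)⁻¹, 1 + u, inv_ne_zero h5, h4, ?_⟩
    have h6 : algebraMap F E (Algebra.trace F E u + 2) ≠ 0 := by
      rwa [Ne, map_eq_zero]
    rw [h3, map_inv₀, ← mul_assoc, inv_mul_cancel₀ h6, one_mul]

/-- `1, d` span a quadratic extension -/
lemma exists_rep (h : Module.finrank F E = 2) {d : E} (hd : ∀ y : F, algebraMap F E y ≠ d) (x : E) :
    ∃ p q : F, x = algebraMap F E p + algebraMap F E q * d := by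
  haveI : FiniteDimensional F E := Module.finite_of_finrank_pos (by rw [h]; norm_num)
  have hli : LinearIndependent F ![(1 : E), d] := by
    rw [LinearIndependent.pair_iff]
    intro s t hst
    rw [Algebra.smul_def, Algebra.smul_def, mul_one] at hst
    by_cases ht : t = 0
    · rw [ht, map_zero, zero_mul, add_zero, map_eq_zero] at hst
      exact ⟨hst, ht⟩
    · exfalso
      apply hd (-s / t)
      have : algebraMap F E t ≠ 0 := by rwa [Ne, map_eq_zero]
      rw [map_div₀, map_neg, div_eq_iff this]
      linear_combination -hst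
  have h1 : Submodule.span F (Set.range ![(1 : E), d]) = ⊤ :=
    hli.span_eq_top_of_card_eq_finrank' (by rw [h]; rfl)
  have h3 : x ∈ Submodule.span F (Set.range ![(1 : E), d]) := by
    rw [h1]; exact Submodule.mem_top
  rw [Matrix.range_cons, Matrix.range_cons, Matrix.range_empty, Set.union_empty,
    Set.singleton_union, Submodule.mem_span_pair] at h3
  obtain ⟨p, q, hpq⟩ := h3
  refine ⟨p, q, ?_⟩
  rw [← hpq, Algebra.smul_def, Algebra.smul_def, mul_one]

lemma rep_unique {d : E} (hd : ∀ y : F, algebraMap F E y ≠ d) {p q : F}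
    (h : algebraMap F E p + algebraMap F E q * d = 0) : p = 0 ∧ q = 0 := by
  by_cases ht : q = 0
  · rw [ht, map_zero, zero_mul, add_zero, map_eq_zero] at h
    exact ⟨h, ht⟩
  · exfalso
    apply hd (-p / q)
    have : algebraMap F E q ≠ 0 := by rwa [Ne, map_eq_zero]
    rw [map_div₀, map_neg, div_eq_iff this]
    linear_combination -h

end

section

variable {K L K2 L2 : Type*} [Field K] [Field L] [Field K2] [Field L2] [Algebra K L] [Algebra K K2]
  [Algebra L L2] [Algebra K2 L2] [Algebra K L2] [IsScalarTower K L L2] [IsScalarTower K K2 L2]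

/-- a square root of an element of `K` which is in `L` is in `K` when `L / K` has odd degree -/
lemma notMem_up [FiniteDimensional K L] (hodd : Odd (Module.finrank K L)) {d : K2} {D : K}
    (hd : d ^ 2 = algebraMap K K2 D) (hdK : ∀ y : K, algebraMap K K2 y ≠ d) (y : L) :
    algebraMap L L2 y ≠ algebraMap K2 L2 d := by
  intro h
  have h1 : y ^ 2 = algebraMap K L D := by
    apply (algebraMap L L2).injective
    rw [map_pow, h, ← map_pow, hd, ← IsScalarTower.algebraMap_apply, ← IsScalarTower.algebraMap_apply]
  have hsq : ∀ z : K, z ^ 2 ≠ D := by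
    intro z hz
    have h2 : (algebraMap K K2 z) ^ 2 = d ^ 2 := by rw [← map_pow, hz, hd]
    rcases sq_eq_sq_iff_eq_or_eq_neg.mp h2 with h3 | h3
    · exact hdK z h3
    · exact hdK (-z) (by rw [map_neg, h3, neg_neg])
  have hn := congrArg (Algebra.norm K) h1
  rw [map_pow, Algebra.norm_algebraMap] at hn
  obtain ⟨n, hn'⟩ := hodd
  rw [hn'] at hn
  by_cases hD : D = 0
  · exact hsq 0 (by rw [hD]; ring)
  · apply hsq (Algebra.norm K y / D ^ n)
    rw [div_pow, hn]
    field_simp
    ring

/-- the norm of an element of `L` with respect to `L2 / K2` -/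
theorem norm_compat [FiniteDimensional K L] (h2K : Module.finrank K K2 = 2) (h2L : Module.finrank L L2 = 2)
    {d : K2} (hdL : ∀ y : L, algebraMap L L2 y ≠ algebraMap K2 L2 d)
    (t : L) : Algebra.norm K2 (algebraMap L L2 t) = algebraMap K K2 (Algebra.norm K t) := by
  haveI : FiniteDimensional K K2 := Module.finite_of_finrank_pos (by rw [h2K]; norm_num)
  haveI : FiniteDimensional L L2 := Module.finite_of_finrank_pos (by rw [h2L]; norm_num)
  haveI : FiniteDimensional K L2 := FiniteDimensional.trans K L L2
  haveI : FiniteDimensional K2 L2 := FiniteDimensional.right K K2 L2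
  have hdeg : Module.finrank K2 L2 = Module.finrank K L := by
    have h1 := Module.finrank_mul_finrank K K2 L2
    have h2 := Module.finrank_mul_finrank K L L2
    rw [h2K] at h1
    rw [h2L] at h2
    omega
  have hspan := exists_rep h2L hdL
  -- a basis of `L / K` is a basis of `L2 / K2`
  let b := Module.finBasis K L
  let v : Fin (Module.finrank K L) → L2 := fun i => algebraMap L L2 (b i)
  have htop : ⊤ ≤ Submodule.span K2 (Set.range v) := by
    intro x _
    obtain ⟨p, q, rfl⟩ := hspan x
    have hL : ∀ y : L, algebraMap L L2 y ∈ Submodule.span K2 (Set.range v) := by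
      intro y
      rw [← b.sum_repr y, map_sum]
      refine Submodule.sum_mem _ fun i _ => ?_
      have : algebraMap L L2 (b.repr y i • b i) = (algebraMap K K2 (b.repr y i)) • v i := by
        rw [Algebra.smul_def, Algebra.smul_def, map_mul, ← IsScalarTower.algebraMap_apply,
          ← IsScalarTower.algebraMap_apply]
      rw [this]
      exact Submodule.smul_mem _ _ (Submodule.subset_span ⟨i, rfl⟩)
    refine Submodule.add_mem _ (hL p) ?_
    rw [mul_comm, ← Algebra.smul_def]
    exact Submodule.smul_mem _ _ (hL q)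
  let c : Module.Basis (Fin (Module.finrank K L)) K2 L2 :=
    basisOfTopLeSpanOfCardEqFinrank v htop (by rw [Fintype.card_fin, hdeg])
  have hc : ∀ i, c i = algebraMap L L2 (b i) := by
    intro i
    rw [coe_basisOfTopLeSpanOfCardEqFinrank]
  rw [Algebra.norm_eq_matrix_det c, Algebra.norm_eq_matrix_det b, RingHom.map_det]
  congr 1
  ext i j
  rw [RingHom.mapMatrix_apply, Matrix.map_apply, Algebra.leftMulMatrix_eq_repr_mul,
    Algebra.leftMulMatrix_eq_repr_mul]
  have h1 : algebraMap L L2 t * c j = ∑ k, (algebraMap K K2 (b.repr (t * b j) k)) • c k := by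
    rw [hc, ← map_mul]
    conv_lhs => rw [← b.sum_repr (t * b j), map_sum]
    refine Finset.sum_congr rfl fun k _ => ?_
    rw [hc, Algebra.smul_def, Algebra.smul_def, map_mul, ← IsScalarTower.algebraMap_apply,
      ← IsScalarTower.algebraMap_apply]
  rw [h1, c.repr_sum_self]

/-- squares of the quadratic extension in the base -/
lemma sq_of_sq (h2K : Module.finrank K K2 = 2) {d : K2} {D : K} (hd : d ^ 2 = algebraMap K K2 D)
    (hdK : ∀ y : K, algebraMap K K2 y ≠ d) (h2 : (2 : K) ≠ 0) {a : K} (ha : IsSquare (algebraMap K K2 a)) :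
    IsSquare a ∨ IsSquare (a * D) := by
  obtain ⟨s, hs⟩ := ha
  obtain ⟨p, q, hpq⟩ := exists_rep h2K hdK s
  have h1 : algebraMap K K2 (p ^ 2 + D * q ^ 2 - a) + algebraMap K K2 (2 * p * q) * d = 0 := by
    rw [map_sub, hs, hpq]
    simp only [map_add, map_mul, map_pow, map_ofNat]
    linear_combination -(algebraMap K K2 q) ^ 2 * hd
  obtain ⟨h4, h5⟩ := rep_unique hdK h1
  rcases mul_eq_zero.mp h5 with h6 | h6
  · have hp : p = 0 := (mul_eq_zero.mp h6).resolve_left h2
    right
    refine ⟨D * q, ?_⟩
    rw [hp] at h4
    linear_combination -D * h4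
  · left
    refine ⟨p, ?_⟩
    rw [h6] at h4
    linear_combination -h4

end

end Pool.Agent.H10.Q
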