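import Pool.Agent.H10.Q.Val
import Pool.Agent.H10.Semi

/-!
The condition modulo four descends through an extension unramified above two.
-/

set_option autoImplicit false
set_option linter.style.haveILetI false

open IsDedekindDomain NumberField WithZero

namespace Pool.Agent.H10.Q

section

variable {F : Type*} [Field F] [NumberField F]

/-- the condition at a prime in `NoNewUnramified` -/
def Sq4 (w : HeightOneSpectrum (𝓞 F)) (x : F) : Prop :=
  ∃ t m : F, t ≠ 0 ∧ w.valuation F m = 1 ∧ w.valuation F (x * t ^ 2 - m ^ 2) ≤ w.valuation F 4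

/-- every unit is a square modulo a prime above two -/
lemma exists_sq_mod {w : HeightOneSpectrum (𝓞 F)} (hw : (2 : 𝓞 F) ∈ w.asIdeal) {y : F}
    (hy : w.valuation F y = 1) : ∃ m : 𝓞 F, w.valuation F (m : F) = 1 ∧
      w.valuation F (y - (m : F) ^ 2) < 1 := by
  obtain ⟨s, hs⟩ := w.exists_valuation_sub_lt_of_integer hy.le 1
  change w.valuation F ((s : F) - y) < 1 at hs
  have hmax := w.isPrime.isMaximal w.ne_bot
  letI := Ideal.Quotient.field w.asIdeal
  haveI : Finite (𝓞 F ⧸ w.asIdeal) := Ideal.finiteQuotientOfFreeOfNeBot w.asIdeal w.ne_bot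
  haveI : CharP (𝓞 F ⧸ w.asIdeal) 2 := by
    apply CharTwo.of_one_ne_zero_of_two_eq_zero one_ne_zero
    have : (Ideal.Quotient.mk w.asIdeal) 2 = 0 := Ideal.Quotient.eq_zero_iff_mem.mpr hw
    rwa [map_ofNat] at this
  obtain ⟨r, hr⟩ := FiniteField.isSquare_of_char_two (F := 𝓞 F ⧸ w.asIdeal)
    (CharP.ringChar_of_prime_eq_zero Nat.prime_two (CharTwo.two_eq_zero)) (Ideal.Quotient.mk w.asIdeal s)
  obtain ⟨m, rfl⟩ := Ideal.Quotient.mk_surjective r
  rw [← map_mul, Ideal.Quotient.eq] at hr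
  have h1 : w.valuation F ((s - m * m : 𝓞 F) : F) < 1 := (w.valuation_lt_one_iff_mem (K := F) _).mpr hr
  have h2 : w.valuation F (y - (m : F) ^ 2) < 1 := by
    have e : y - (m : F) ^ 2 = ((s - m * m : 𝓞 F) : F) - ((s : F) - y) := by
      push_cast
      ring
    rw [e]
    exact (Valuation.map_sub _ _ _).trans_lt (max_lt h1 hs)
  refine ⟨m, ?_, h2⟩
  have h3 : w.valuation F ((m : F) ^ 2) = 1 := by
    have e : (m : F) ^ 2 = y - (y - (m : F) ^ 2) := by ring
    rw [e, Valuation.map_sub_eq_of_lt_left _ (by rw [hy]; exact h2), hy]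
  rw [map_pow] at h3
  exact (pow_eq_one_iff_of_nonneg zero_le two_ne_zero).mp h3

lemma val_two_of_unram {w : HeightOneSpectrum (𝓞 F)} (hw : (2 : 𝓞 F) ∈ w.asIdeal)
    (h2 : (2 : 𝓞 F) ∉ w.asIdeal ^ 2) : w.valuation F 2 = exp (-1 : ℤ) := by
  have e : (2 : F) = algebraMap (𝓞 F) F 2 := (map_ofNat (algebraMap (𝓞 F) F) 2).symm
  rw [e, w.valuation_of_algebraMap]
  apply le_antisymm
  · have := (w.intValuation_le_pow_iff_mem (2 : 𝓞 F) 1).mpr (by rwa [pow_one])
    simpa using this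
  · by_contra hlt
    rw [not_le] at hlt
    apply h2
    rw [← w.intValuation_le_pow_iff_mem]
    have h0 : w.intValuation (2 : 𝓞 F) ≠ 0 := w.intValuation_ne_zero _ two_ne_zero
    rw [← exp_log h0, exp_lt_exp] at hlt
    rw [← exp_log h0, exp_le_exp]
    push_cast
    omega

lemma log_le_of_lt_one {x : ℤᵐ⁰} (h : x < 1) : x ≤ exp (-1 : ℤ) := by
  by_cases hx : x = 0
  · rw [hx]; exact zero_le
  · rw [← exp_log hx, ← exp_zero, exp_lt_exp] at h
    rw [← exp_log hx, exp_le_exp]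
    omega

end

section

variable {F E : Type*} [Field F] [NumberField F] [Field E] [NumberField E] [Algebra F E]

lemma val_eq_of_unram (w : HeightOneSpectrum (𝓞 F)) (W : HeightOneSpectrum (𝓞 E))
    [W.asIdeal.LiesOver w.asIdeal] (hW2 : (2 : 𝓞 E) ∈ W.asIdeal)
    (hunr : (2 : 𝓞 E) ∉ W.asIdeal ^ 2) (x : F) : W.valuation E (algebraMap F E x) = w.valuation F x := by
  have h1 := val_two_of_unram hW2 hunr
  have h2 := val_above w W (2 : F)
  rw [map_ofNat (algebraMap F E), h1] at h2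
  have h3 := congrArg log h2
  rw [log_pow, log_exp, nsmul_eq_mul] at h3
  have h4 : w.asIdeal.ramificationIdx' W.asIdeal = 1 := by
    have h5 : ((w.asIdeal.ramificationIdx' W.asIdeal : ℕ) : ℤ) ∣ 1 := by
      rw [← dvd_neg]
      exact ⟨_, h3.symm⟩
    exact_mod_cast Int.eq_one_of_dvd_one (by positivity) h5
  rw [← val_above w W, h4, pow_one]

theorem sq4_descend (w : HeightOneSpectrum (𝓞 F)) (W : HeightOneSpectrum (𝓞 E))
    [hWw : W.asIdeal.LiesOver w.asIdeal] (hW2 : (2 : 𝓞 E) ∈ W.asIdeal)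
    (hunr : (2 : 𝓞 E) ∉ W.asIdeal ^ 2) {y : F} (h : Sq4 W (algebraMap F E y)) : Sq4 w y := by
  have hval := val_eq_of_unram w W hW2 hunr
  have hE2 := val_two_of_unram hW2 hunr
  have hF2 : w.valuation F 2 = exp (-1 : ℤ) := by rw [← hval, map_ofNat (algebraMap F E), hE2]
  have hw2 : (2 : 𝓞 F) ∈ w.asIdeal := by
    rw [hWw.over]
    change algebraMap (𝓞 F) (𝓞 E) 2 ∈ W.asIdeal
    rwa [map_ofNat]
  have hE4 : W.valuation E 4 = exp (-1 : ℤ) * exp (-1 : ℤ) := by
    have : (4 : E) = 2 * 2 := by norm_num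
    rw [this, map_mul, hE2]
  have hE4lt : W.valuation E 4 < 1 := by
    rw [hE4, ← exp_add, ← exp_zero, exp_lt_exp]; norm_num
  have hE4le : W.valuation E 4 ≤ exp (-1 : ℤ) := by
    rw [hE4, ← exp_add, exp_le_exp]; norm_num
  obtain ⟨t, m, ht, hm, hle⟩ := h
  have hyt : W.valuation E (algebraMap F E y * t ^ 2) = 1 := by
    have e : algebraMap F E y * t ^ 2 = (algebraMap F E y * t ^ 2 - m ^ 2) + m ^ 2 := by ring
    rw [e, Valuation.map_add_eq_of_lt_right, map_pow, hm, one_pow]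
    rw [map_pow, hm, one_pow]
    exact hle.trans_lt hE4lt
  have htv : W.valuation E t ≠ 0 := (Valuation.ne_zero_iff _).mpr ht
  set k := log (W.valuation E t) with hk
  set t0 : F := 2 ^ (-k) with ht0
  have ht00 : t0 ≠ 0 := zpow_ne_zero _ two_ne_zero
  have hvt0 : W.valuation E (algebraMap F E t0) = W.valuation E t := by
    rw [hval, ht0, map_zpow₀, hF2, ← exp_zsmul, ← exp_log htv, ← hk]
    congr 1
    simp
  have hT0 : algebraMap F E t0 ≠ 0 := by rwa [Ne, map_eq_zero]
  set c := algebraMap F E t0 / t with hc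
  have hc1 : W.valuation E c = 1 := by
    rw [hc, map_div₀, hvt0, div_self htv]
  set m' := m * c with hm'
  have hm'1 : W.valuation E m' = 1 := by rw [hm', map_mul, hm, hc1, one_mul]
  set y0 := y * t0 ^ 2 with hy0
  have ey0 : algebraMap F E y0 = algebraMap F E y * t ^ 2 * c ^ 2 := by
    rw [hy0, map_mul, map_pow, hc]
    field_simp
  have hd1 : W.valuation E (algebraMap F E y0 - m' ^ 2) ≤ W.valuation E 4 := by
    have e : algebraMap F E y0 - m' ^ 2 = (algebraMap F E y * t ^ 2 - m ^ 2) * c ^ 2 := by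
      rw [ey0, hm']
      ring
    rw [e, map_mul, map_pow, hc1, one_pow, mul_one]
    exact hle
  have hy01 : w.valuation F y0 = 1 := by
    rw [← hval, ey0, map_mul, hyt, map_pow, hc1, one_pow, one_mul]
  obtain ⟨m0, hm01, hm0⟩ := exists_sq_mod hw2 hy01
  have hm0' := log_le_of_lt_one hm0
  rw [← hval] at hm0' hm01
  set M := algebraMap F E (m0 : F) with hM
  have hd2 : W.valuation E (algebraMap F E y0 - M ^ 2) ≤ exp (-1 : ℤ) := by
    rw [hM, ← map_pow, ← map_sub]
    exact hm0'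
  have hsq : W.valuation E ((m' - M) ^ 2) ≤ exp (-1 : ℤ) := by
    have e : (m' - M) ^ 2 = (algebraMap F E y0 - M ^ 2) - (algebraMap F E y0 - m' ^ 2) +
        2 * (M * (M - m')) := by ring
    rw [e]
    refine (Valuation.map_add _ _ _).trans (max_le ((Valuation.map_sub _ _ _).trans
      (max_le hd2 (hd1.trans hE4le))) ?_)
    rw [map_mul, map_mul, hE2, hm01, one_mul]
    refine mul_le_of_le_one_right' ((Valuation.map_sub _ _ _).trans (max_le hm01.le hm'1.le))
  have hlt : W.valuation E (m' - M) < 1 := by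
    by_contra hge
    rw [not_lt] at hge
    rw [map_pow] at hsq
    have h1 : (1 : ℤᵐ⁰) ≤ W.valuation E (m' - M) ^ 2 := one_le_pow₀ hge
    have h2 := h1.trans hsq
    rw [← exp_zero, exp_le_exp] at h2
    omega
  have hd3 := log_le_of_lt_one hlt
  have hd4 : W.valuation E (m' ^ 2 - M ^ 2) ≤ W.valuation E 4 := by
    have e : m' ^ 2 - M ^ 2 = (m' - M) * ((m' - M) + 2 * M) := by ring
    rw [e, map_mul, hE4]
    refine mul_le_mul' hd3 ((Valuation.map_add _ _ _).trans (max_le hd3 ?_))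
    rw [map_mul, hE2, hm01, mul_one]
  refine ⟨t0, (m0 : F), ht00, ?_, ?_⟩
  · rw [← hval]; exact hm01
  · rw [← hval, ← hval, map_ofNat (algebraMap F E), map_sub, map_pow, ← hM, ← hy0]
    have e : algebraMap F E y0 - M ^ 2 = (algebraMap F E y0 - m' ^ 2) + (m' ^ 2 - M ^ 2) := by ring
    rw [e]
    exact (Valuation.map_add _ _ _).trans (max_le hd1 hd4)

end

end Pool.Agent.H10.Q
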