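import Pool.Agent.H10.Q.Mod4
import Pool.Agent.H10.Q.Even
import Pool.Agent.H10.StarGal

/-!
The quadratic step: no new classes for `L / K` of odd degree implies no new classes for
`L(√δ) / K(√δ)`.
-/

set_option autoImplicit false
set_option linter.style.haveILetI false

open IsDedekindDomain NumberField WithZero

namespace Pool.Agent.H10.Q

section real

variable {L E : Type*} [Field L] [NumberField L] [Field E] [NumberField E] [Algebra L E]

lemma exists_ext [IsTotallyReal E] (φ : L →+* ℝ) : ∃ ψ : E →+* ℝ, ∀ x, ψ (algebraMap L E x) = φ x := by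
  letI : Algebra L ℂ := (Complex.ofRealHom.comp φ).toAlgebra
  let ψc : E →ₐ[L] ℂ := IsAlgClosed.lift
  have hr : ComplexEmbedding.IsReal (ψc : E →+* ℂ) :=
    IsTotallyReal.complexEmbedding_isReal (K := E) (ψc : E →+* ℂ)
  refine ⟨hr.embedding, fun x => ?_⟩
  apply Complex.ofReal_injective
  rw [hr.coe_embedding_apply]
  exact ψc.commutes x

end real

section

variable (K L K2 L2 : Type) [Field K] [NumberField K] [Field L] [NumberField L] [Field K2]
  [NumberField K2] [Field L2] [NumberField L2] [Algebra K L] [Algebra K K2] [Algebra L L2]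
  [Algebra K2 L2]

/-- `L / K` of odd degree, `K2 = K(√δ)`, `L2 = L(√δ)`, the primes above `2 δ` do not decompose
in `L / K` -/
structure QStep : Prop where
  odd : Odd (Module.finrank K L)
  fK : Module.finrank K K2 = 2
  fL : Module.finrank L L2 = 2
  gen : ∃ (d : 𝓞 K2) (δ : 𝓞 K), d ^ 2 = algebraMap (𝓞 K) (𝓞 K2) δ ∧
    (∀ y : K, algebraMap K K2 y ≠ (d : K2)) ∧
    ∀ v : HeightOneSpectrum (𝓞 K), 2 * δ ∈ v.asIdeal → UniqueOver K L v.asIdeal

variable {K L K2 L2} [Algebra K L2] [IsScalarTower K L L2] [IsScalarTower K K2 L2]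

/-- descent of a class whose norm to `L` is a square -/
theorem QStep.core (S : QStep K L K2 L2) {x : L2} (hx : x ≠ 0)
    (hev : ∀ W : HeightOneSpectrum (𝓞 L2), Even (log (W.valuation L2 x)))
    (hN : IsSquare (Algebra.norm K2 x)) (hsq : IsSquare (Algebra.norm L x)) :
    ∃ (t : L) (z : L2), t ≠ 0 ∧ z ≠ 0 ∧ x = algebraMap L L2 t * z ^ 2 ∧
      IsSquare (Algebra.norm K t) ∧ ∀ w : HeightOneSpectrum (𝓞 L), Even (log (w.valuation L t)) := by
  obtain ⟨d, δ, hd, hdK, hU⟩ := S.gen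
  have hdK2 : (d : K2) ^ 2 = algebraMap K K2 (δ : K) := by
    have := congrArg (algebraMap (𝓞 K2) K2) hd
    rw [map_pow] at this
    rw [this, ← IsScalarTower.algebraMap_apply, ← IsScalarTower.algebraMap_apply]
  have hdL := notMem_up (L := L) (L2 := L2) S.odd hdK2 hdK
  have hd0 : (d : K2) ≠ 0 := by
    intro h
    exact hdK 0 (by rw [map_zero, h])
  have hδ0 : (δ : K) ≠ 0 := by
    intro h
    rw [h, map_zero] at hdK2
    exact hd0 (pow_eq_zero_iff two_ne_zero |>.mp hdK2)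
  -- first descent
  obtain ⟨y, hy⟩ := hsq
  have hNx : Algebra.norm L x ≠ 0 := by rw [Ne, Algebra.norm_eq_zero_iff]; exact hx
  have hy0 : y ≠ 0 := by
    rintro rfl
    rw [mul_zero] at hy
    exact hNx hy
  have hyL : algebraMap L L2 y ≠ 0 := by rwa [Ne, map_eq_zero]
  have hu : Algebra.norm L (x / algebraMap L L2 y) = 1 := by
    have h1 : Algebra.norm L (x / algebraMap L L2 y) * Algebra.norm L (algebraMap L L2 y) =
        Algebra.norm L x := by
      rw [← map_mul, div_mul_cancel₀ _ hyL]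
    rw [Algebra.norm_algebraMap, S.fL, hy, pow_two] at h1
    exact mul_right_cancel₀ (mul_ne_zero hy0 hy0) (by rw [h1, one_mul])
  obtain ⟨t1, z, ht1, hz, hxz⟩ := hilb S.fL hu
  have hx2 : x = algebraMap L L2 (y * t1) * z ^ 2 := by
    rw [map_mul, mul_assoc, ← hxz, mul_div_cancel₀ _ hyL]
  have ht2 : y * t1 ≠ 0 := mul_ne_zero hy0 ht1
  -- the norm to `K`
  have hNt : IsSquare (algebraMap K K2 (Algebra.norm K (y * t1))) := by
    rw [← norm_compat S.fK S.fL hdL]
    have hz2 : Algebra.norm K2 z ≠ 0 := by rw [Ne, Algebra.norm_eq_zero_iff]; exact hz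
    obtain ⟨c, hc⟩ := hN
    rw [hx2, map_mul, map_pow] at hc
    refine ⟨c / Algebra.norm K2 z, ?_⟩
    field_simp
    rw [hc]
    ring
  have hex : ∃ (t : L) (z : L2), t ≠ 0 ∧ z ≠ 0 ∧ x = algebraMap L L2 t * z ^ 2 ∧
      IsSquare (Algebra.norm K t) := by
    rcases sq_of_sq S.fK hdK2 hdK two_ne_zero hNt with h | h
    · exact ⟨y * t1, z, ht2, hz, hx2, h⟩
    · have hdL2 : algebraMap K2 L2 (d : K2) ≠ 0 := by rwa [Ne, map_eq_zero]
      refine ⟨y * t1 * algebraMap K L (δ : K), z / algebraMap K2 L2 (d : K2),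
        mul_ne_zero ht2 (by rwa [Ne, map_eq_zero]), div_ne_zero hz hdL2, ?_, ?_⟩
      · have e : algebraMap L L2 (algebraMap K L (δ : K)) = (algebraMap K2 L2 (d : K2)) ^ 2 := by
          rw [← map_pow, hdK2, ← IsScalarTower.algebraMap_apply K L L2,
            ← IsScalarTower.algebraMap_apply K K2 L2]
        rw [map_mul, e, hx2]
        field_simp
      · obtain ⟨n, hn⟩ := S.odd
        obtain ⟨c, hc⟩ := h
        rw [map_mul, Algebra.norm_algebraMap, hn]
        refine ⟨c * (δ : K) ^ n, ?_⟩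
        calc Algebra.norm K (y * t1) * (δ : K) ^ (2 * n + 1)
            = (Algebra.norm K (y * t1) * (δ : K)) * ((δ : K) ^ n * (δ : K) ^ n) := by ring
          _ = _ := by rw [hc]; ring
  obtain ⟨t, z', ht, hz', hxt, hNt'⟩ := hex
  refine ⟨t, z', ht, hz', hxt, hNt', fun w => ?_⟩
  -- valuations
  let v : HeightOneSpectrum (𝓞 K) := ⟨w.asIdeal.under (𝓞 K), inferInstance,
    Ideal.IsIntegral.comap_ne_bot _ w.ne_bot⟩
  by_cases hv : 2 * δ ∈ v.asIdeal
  · exact even_of_norm_sq S.odd (hU v hv) Ideal.map_comap_le ht hNt'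
  · obtain ⟨W, hW⟩ := exists_above (E := L2) w
    have hram : w.asIdeal.ramificationIdx' W.asIdeal = 1 := by
      refine ram_one S.fL (d := algebraMap (𝓞 K2) (𝓞 L2) d) (δ := algebraMap (𝓞 K) (𝓞 L) δ) ?_ ?_ w W ?_
      · apply RingOfIntegers.coe_injective
        rw [map_pow]
        change (algebraMap K2 L2 (d : K2)) ^ 2 = algebraMap L L2 (algebraMap K L (δ : K))
        rw [← map_pow, hdK2, ← IsScalarTower.algebraMap_apply K L L2,
          ← IsScalarTower.algebraMap_apply K K2 L2]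
      · exact hdL
      · intro h
        apply hv
        change algebraMap (𝓞 K) (𝓞 L) (2 * δ) ∈ w.asIdeal
        rwa [map_mul, map_ofNat]
    have h1 := val_above w W t
    rw [hram, pow_one] at h1
    have h2 := hev W
    have htL : algebraMap L L2 t ≠ 0 := by rwa [Ne, map_eq_zero]
    rw [hxt, map_mul, map_pow, log_mul ((Valuation.ne_zero_iff _).mpr htL)
      (pow_ne_zero _ ((Valuation.ne_zero_iff _).mpr hz')), log_pow, ← h1, Int.even_add] at h2
    exact h2.mpr ⟨log (W.valuation L2 z'), by rw [two_nsmul]⟩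

theorem QStep.norm_sq (S : QStep K L K2 L2) {x : L2} (hN : IsSquare (Algebra.norm K2 x)) :
    IsSquare (Algebra.norm K (Algebra.norm L x)) := by
  haveI : FiniteDimensional K K2 := Module.finite_of_finrank_pos (by rw [S.fK]; norm_num)
  haveI : FiniteDimensional L L2 := Module.finite_of_finrank_pos (by rw [S.fL]; norm_num)
  rw [Algebra.norm_norm, ← Algebra.norm_norm (S := K2)]
  exact hN.map _

lemma exists_sigma (h : Module.finrank L L2 = 2) :
    ∃ σ : L2 ≃ₐ[L] L2, ∀ x : L2, algebraMap L L2 (Algebra.norm L x) = x * σ x := by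
  haveI : Algebra.IsQuadraticExtension L L2 := ⟨h⟩
  haveI : IsGalois L L2 := inferInstance
  have hc : Nat.card (L2 ≃ₐ[L] L2) = 2 := by rw [IsGalois.card_aut_eq_finrank, h]
  rw [Nat.card_eq_fintype_card] at hc
  obtain ⟨σ, hσ⟩ : ∃ σ : L2 ≃ₐ[L] L2, σ ≠ 1 := by
    by_contra hall
    push Not at hall
    have : Subsingleton (L2 ≃ₐ[L] L2) := ⟨fun a b => by rw [hall a, hall b]⟩
    have := Fintype.card_le_one_iff_subsingleton.mpr this
    omega
  classical
  have huniv : (Finset.univ : Finset (L2 ≃ₐ[L] L2)) = {1, σ} := by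
    symm
    apply Finset.eq_univ_of_card
    rw [hc, Finset.card_pair hσ.symm]
  refine ⟨σ, fun x => ?_⟩
  rw [Algebra.norm_eq_prod_automorphisms, huniv, Finset.prod_pair hσ.symm]
  rfl

/-- LEMMA A. -/
theorem QStep.noNewPositive (S : QStep K L K2 L2) [IsTotallyReal L2] (R1 : NoNewPositive K L) :
    NoNewPositive K2 L2 := by
  intro x hx hev hN hpos
  obtain ⟨σ, hσ⟩ := exists_sigma S.fL
  have hNx : Algebra.norm L x ≠ 0 := by rw [Ne, Algebra.norm_eq_zero_iff]; exact hx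
  have h1 := R1 (Algebra.norm L x) hNx (norm_even hx hev) (S.norm_sq hN) (fun φ => by
    obtain ⟨ψ, hψ⟩ := exists_ext (E := L2) φ
    rw [← hψ, hσ, map_mul]
    exact mul_pos (hpos ψ) (hpos (ψ.comp (σ : L2 →+* L2))))
  obtain ⟨t, z, ht, hz, hxt, hNt, hevt⟩ := S.core hx hev hN h1
  have h2 := R1 t ht hevt hNt (fun φ => by
    obtain ⟨ψ, hψ⟩ := exists_ext (E := L2) φ
    have h3 := hpos ψ
    rw [hxt, map_mul, map_pow, hψ] at h3
    have hz' : ψ z ≠ 0 := by rwa [Ne, map_eq_zero]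
    exact (mul_pos_iff_of_pos_right (by positivity)).mp h3)
  obtain ⟨s, hs⟩ := h2
  refine ⟨algebraMap L L2 s * z, ?_⟩
  rw [hxt, hs, map_mul]
  ring

lemma Sq4.mul {F : Type*} [Field F] [NumberField F] {w : HeightOneSpectrum (𝓞 F)} {x y : F}
    (hx : Sq4 w x) (hy : Sq4 w y) (h4 : w.valuation F 4 ≤ 1) : Sq4 w (x * y) := by
  obtain ⟨t, m, ht, hm, h⟩ := hx
  obtain ⟨t', m', ht', hm', h'⟩ := hy
  refine ⟨t * t', m * m', mul_ne_zero ht ht', by rw [map_mul, hm, hm', one_mul], ?_⟩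
  have e : x * y * (t * t') ^ 2 - (m * m') ^ 2 =
      (x * t ^ 2 - m ^ 2) * (y * t' ^ 2 - m' ^ 2) + (m ^ 2 * (y * t' ^ 2 - m' ^ 2) +
        m' ^ 2 * (x * t ^ 2 - m ^ 2)) := by ring
  rw [e]
  refine (Valuation.map_add _ _ _).trans (max_le ?_ ((Valuation.map_add _ _ _).trans (max_le ?_ ?_)))
  · rw [map_mul]
    calc _ ≤ w.valuation F 4 * 1 := mul_le_mul' h (h'.trans h4)
      _ = _ := mul_one _
  · rw [map_mul, map_pow, hm, one_pow, one_mul]
    exact h'
  · rw [map_mul, map_pow, hm', one_pow, one_mul]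
    exact h

lemma val_four_le (F : Type*) [Field F] [NumberField F] (w : HeightOneSpectrum (𝓞 F)) :
    w.valuation F 4 ≤ 1 := by
  have e4 : ((4 : 𝓞 F) : F) = 4 := map_ofNat (algebraMap (𝓞 F) F) 4
  have := w.valuation_le_one (K := F) (4 : 𝓞 F)
  rwa [← e4]

lemma Sq4.conj {F E : Type} [Field F] [NumberField F] [Field E] [NumberField E] [Algebra F E]
    (σ : E ≃ₐ[F] E) {x : E} (h : ∀ W : HeightOneSpectrum (𝓞 E), (2 : 𝓞 E) ∈ W.asIdeal → Sq4 W x)
    (W : HeightOneSpectrum (𝓞 E)) (hW : (2 : 𝓞 E) ∈ W.asIdeal) : Sq4 W (σ x) := by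
  obtain ⟨W', h1, h2⟩ := exists_conj σ W
  have hW' : (2 : 𝓞 E) ∈ W'.asIdeal := by
    have := (h2 2).mpr (by rwa [map_ofNat])
    rwa [map_ofNat] at this
  obtain ⟨t, m, ht, hm, hle⟩ := h W' hW'
  refine ⟨σ t, σ m, by rwa [Ne, map_eq_zero], by rw [h1, hm], ?_⟩
  have e : σ x * σ t ^ 2 - σ m ^ 2 = σ (x * t ^ 2 - m ^ 2) := by
    rw [map_sub, map_mul, map_pow, map_pow]
  have e4 : (4 : E) = σ 4 := (map_ofNat σ 4).symm
  rw [e, h1]
  conv_rhs => rw [e4, h1]
  exact hle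

/-- LEMMA B. -/
theorem QStep.noNewUnramified (S : QStep K L K2 L2)
    (hunr : ∀ W : HeightOneSpectrum (𝓞 L2), (2 : 𝓞 L2) ∈ W.asIdeal → (2 : 𝓞 L2) ∉ W.asIdeal ^ 2)
    (R2 : NoNewUnramified K L) : NoNewUnramified K2 L2 := by
  intro x hx hev hN h4
  obtain ⟨σ, hσ⟩ := exists_sigma S.fL
  have hNx : Algebra.norm L x ≠ 0 := by rw [Ne, Algebra.norm_eq_zero_iff]; exact hx
  have hup : ∀ (w : HeightOneSpectrum (𝓞 L)) (W : HeightOneSpectrum (𝓞 L2))
      [hW : W.asIdeal.LiesOver w.asIdeal], (2 : 𝓞 L) ∈ w.asIdeal → (2 : 𝓞 L2) ∈ W.asIdeal := by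
    intro w W hW hw
    have : algebraMap (𝓞 L) (𝓞 L2) 2 ∈ W.asIdeal := by
      rw [hW.over] at hw
      exact hw
    rwa [map_ofNat] at this
  have h1 := R2 (Algebra.norm L x) hNx (norm_even hx hev) (S.norm_sq hN) (fun w hw => by
    obtain ⟨W, hW⟩ := exists_above (E := L2) w
    have hW2 := hup w W hw
    apply sq4_descend w W hW2 (hunr W hW2)
    rw [hσ]
    exact Sq4.mul (h4 W hW2) (Sq4.conj σ h4 W hW2) (val_four_le _ W))
  obtain ⟨t, z, ht, hz, hxt, hNt, hevt⟩ := S.core hx hev hN h1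
  have h2 := R2 t ht hevt hNt (fun w hw => by
    obtain ⟨W, hW⟩ := exists_above (E := L2) w
    have hW2 := hup w W hw
    apply sq4_descend w W hW2 (hunr W hW2)
    obtain ⟨t', m, ht', hm, hle⟩ := h4 W hW2
    refine ⟨z * t', m, mul_ne_zero hz ht', hm, ?_⟩
    have e : algebraMap L L2 t * (z * t') ^ 2 = x * t' ^ 2 := by rw [hxt]; ring
    rw [e]
    exact hle)
  obtain ⟨s, hs⟩ := h2
  refine ⟨algebraMap L L2 s * z, ?_⟩
  rw [hxt, hs, map_mul]
  ring

end

end Pool.Agent.H10.Q
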