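import Pool.Agent.H10.Q.Step

/-!
The quadratic step for the uniqueness of the primes above a prime.
-/

set_option autoImplicit false
set_option linter.style.haveILetI false
set_option linter.deprecated false

open IsDedekindDomain NumberField

namespace Pool.Agent.H10.Q

section

variable {F E : Type*} [Field F] [NumberField F] [Field E] [NumberField E] [Algebra F E]

/-- local degree -/
noncomputable def ef (w : HeightOneSpectrum (𝓞 F)) (W : HeightOneSpectrum (𝓞 E)) : ℕ :=
  w.asIdeal.ramificationIdx' W.asIdeal * w.asIdeal.inertiaDeg' W.asIdeal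

lemma ef_pos (w : HeightOneSpectrum (𝓞 F)) (W : HeightOneSpectrum (𝓞 E))
    [W.asIdeal.LiesOver w.asIdeal] : 0 < ef w W := by
  haveI := w.isPrime.isMaximal w.ne_bot
  exact Nat.mul_pos (Nat.pos_of_ne_zero (ram_ne_zero w W)) (Ideal.inertiaDeg'_pos w.asIdeal W.asIdeal)

lemma sum_ef (w : HeightOneSpectrum (𝓞 F)) :
    ∑ P ∈ IsDedekindDomain.primesOverFinset w.asIdeal (𝓞 E),
      w.asIdeal.ramificationIdx' P * w.asIdeal.inertiaDeg' P = Module.finrank F E := by
  haveI := w.isPrime.isMaximal w.ne_bot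
  exact Ideal.sum_ramification_inertia (𝓞 E) F E w.ne_bot

lemma mem_over (w : HeightOneSpectrum (𝓞 F)) (W : HeightOneSpectrum (𝓞 E))
    [h : W.asIdeal.LiesOver w.asIdeal] :
    W.asIdeal ∈ IsDedekindDomain.primesOverFinset w.asIdeal (𝓞 E) := by
  haveI := w.isPrime.isMaximal w.ne_bot
  exact (IsDedekindDomain.mem_primesOverFinset_iff w.ne_bot _).mpr ⟨W.isPrime, h⟩

lemma ef_le (w : HeightOneSpectrum (𝓞 F)) (W : HeightOneSpectrum (𝓞 E))
    [W.asIdeal.LiesOver w.asIdeal] : ef w W ≤ Module.finrank F E := by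
  rw [← sum_ef (E := E) w]
  exact Finset.single_le_sum (f := fun P => w.asIdeal.ramificationIdx' P * w.asIdeal.inertiaDeg' P)
    (fun _ _ => Nat.zero_le _) (mem_over w W)

lemma ef_add_le (w : HeightOneSpectrum (𝓞 F)) (W W' : HeightOneSpectrum (𝓞 E))
    [W.asIdeal.LiesOver w.asIdeal] [W'.asIdeal.LiesOver w.asIdeal] (hne : W.asIdeal ≠ W'.asIdeal) :
    ef w W + ef w W' ≤ Module.finrank F E := by
  classical
  rw [← sum_ef (E := E) w]
  have h1 : ({W.asIdeal, W'.asIdeal} : Finset (Ideal (𝓞 E))) ⊆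
      IsDedekindDomain.primesOverFinset w.asIdeal (𝓞 E) := by
    intro P hP
    rw [Finset.mem_insert, Finset.mem_singleton] at hP
    rcases hP with rfl | rfl
    · exact mem_over w W
    · exact mem_over w W'
  have h2 := Finset.sum_le_sum_of_subset (f := fun P => w.asIdeal.ramificationIdx' P *
    w.asIdeal.inertiaDeg' P) h1
  rw [Finset.sum_pair hne] at h2
  exact h2

lemma liesOver_of_map_le {w : HeightOneSpectrum (𝓞 F)} {P : Ideal (𝓞 E)} (hP : P.IsPrime)
    (h : w.asIdeal.map (algebraMap (𝓞 F) (𝓞 E)) ≤ P) : P.LiesOver w.asIdeal := by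
  haveI := w.isPrime.isMaximal w.ne_bot
  constructor
  refine this.eq_of_le ?_ ?_
  · exact (Ideal.IsPrime.under (𝓞 F) P).ne_top
  · rw [Ideal.map_le_iff_le_comap] at h
    exact h

lemma ne_bot_of_map_le {w : HeightOneSpectrum (𝓞 F)} {P : Ideal (𝓞 E)}
    (h : w.asIdeal.map (algebraMap (𝓞 F) (𝓞 E)) ≤ P) : P ≠ ⊥ := by
  rintro rfl
  obtain ⟨a, ha, ha0⟩ := Submodule.exists_mem_ne_zero_of_ne_bot w.ne_bot
  have h1 := h (Ideal.mem_map_of_mem _ ha)
  rw [Ideal.mem_bot, map_eq_zero_iff _ (FaithfulSMul.algebraMap_injective (𝓞 F) (𝓞 E))] at h1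
  exact ha0 h1

lemma ef_of_unique {w : HeightOneSpectrum (𝓞 F)} (hU : UniqueOver F E w.asIdeal)
    (W : HeightOneSpectrum (𝓞 E)) [hW : W.asIdeal.LiesOver w.asIdeal] :
    ef w W = Module.finrank F E := by
  classical
  have h1 : IsDedekindDomain.primesOverFinset w.asIdeal (𝓞 E) = {W.asIdeal} := by
    haveI := w.isPrime.isMaximal w.ne_bot
    ext P
    rw [Finset.mem_singleton]
    constructor
    · intro hP
      obtain ⟨hP1, hP2⟩ := (IsDedekindDomain.mem_primesOverFinset_iff w.ne_bot _).mp hP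
      refine hU P W.asIdeal hP1 W.isPrime ?_ (map_le_of_liesOver w W)
      rw [Ideal.map_le_iff_le_comap]
      exact le_of_eq hP2.over
    · rintro rfl
      exact mem_over w W
  rw [← sum_ef (E := E) w, h1, Finset.sum_singleton]
  rfl

end

section

variable {F E M : Type*} [Field F] [NumberField F] [Field E] [NumberField E] [Field M] [NumberField M]
  [Algebra F E] [Algebra E M] [Algebra F M] [IsScalarTower F E M]

lemma ef_tower (u : HeightOneSpectrum (𝓞 F)) (v : HeightOneSpectrum (𝓞 E))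
    (w : HeightOneSpectrum (𝓞 M)) [v.asIdeal.LiesOver u.asIdeal] [w.asIdeal.LiesOver v.asIdeal] :
    ef u w = ef u v * ef v w := by
  haveI := u.isPrime.isMaximal u.ne_bot
  haveI := v.isPrime.isMaximal v.ne_bot
  unfold ef
  rw [Ideal.ramificationIdx'_algebra_tower' u.asIdeal v.asIdeal w.asIdeal,
    Ideal.inertiaDeg'_algebra_tower u.asIdeal v.asIdeal w.asIdeal]
  ring

end

section

variable {K L K2 L2 : Type} [Field K] [NumberField K] [Field L] [NumberField L] [Field K2]
  [NumberField K2] [Field L2] [NumberField L2] [Algebra K L] [Algebra K K2] [Algebra L L2]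
  [Algebra K2 L2] [Algebra K L2] [IsScalarTower K L L2] [IsScalarTower K K2 L2]

/-- uniqueness of the prime above goes up in a quadratic step -/
theorem unique_step (hodd : Odd (Module.finrank K L)) (fK : Module.finrank K K2 = 2)
    (fL : Module.finrank L L2 = 2) {v : HeightOneSpectrum (𝓞 K)} (hU : UniqueOver K L v.asIdeal)
    (v2 : HeightOneSpectrum (𝓞 K2)) [hv : v2.asIdeal.LiesOver v.asIdeal] :
    UniqueOver K2 L2 v2.asIdeal := by
  haveI : FiniteDimensional K K2 := Module.finite_of_finrank_pos (by rw [fK]; norm_num)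
  haveI : FiniteDimensional L L2 := Module.finite_of_finrank_pos (by rw [fL]; norm_num)
  haveI : FiniteDimensional K L2 := FiniteDimensional.trans K L L2
  haveI : FiniteDimensional K2 L2 := FiniteDimensional.right K K2 L2
  have hdeg : Module.finrank K2 L2 = Module.finrank K L := by
    have h1 := Module.finrank_mul_finrank K K2 L2
    have h2 := Module.finrank_mul_finrank K L L2
    rw [fK] at h1
    rw [fL] at h2
    omega
  have key : ∀ W : HeightOneSpectrum (𝓞 L2), W.asIdeal.LiesOver v2.asIdeal →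
      ef v2 W = Module.finrank K L := by
    intro W hW
    let w : HeightOneSpectrum (𝓞 L) := ⟨W.asIdeal.under (𝓞 L), inferInstance,
      Ideal.IsIntegral.comap_ne_bot _ W.ne_bot⟩
    haveI hWw : W.asIdeal.LiesOver w.asIdeal := ⟨rfl⟩
    haveI hWv : W.asIdeal.LiesOver v.asIdeal := Ideal.LiesOver.trans W.asIdeal v2.asIdeal v.asIdeal
    haveI hwv : w.asIdeal.LiesOver v.asIdeal := Ideal.LiesOver.tower_bot W.asIdeal w.asIdeal v.asIdeal
    have h1 := ef_tower v w W
    have h2 := ef_tower v v2 W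
    rw [h1, ef_of_unique hU w] at h2
    have h3 := ef_pos w W
    have h4 := ef_le w W
    have h5 := ef_pos v v2
    have h6 := ef_le v v2
    have h7 := ef_le v2 W
    rw [fL] at h4
    rw [fK] at h6
    rw [hdeg] at h7
    obtain ⟨n, hn⟩ := hodd
    rw [hn] at h2 h7 ⊢
    have h8 : ef w W = 1 ∨ ef w W = 2 := by omega
    have h9 : ef v v2 = 1 ∨ ef v v2 = 2 := by omega
    rcases h8 with h8 | h8 <;> rcases h9 with h9 | h9 <;> rw [h8, h9] at h2 <;> omega
  intro P Q hP hQ hPv hQv
  by_contra hne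
  let WP : HeightOneSpectrum (𝓞 L2) := ⟨P, hP, ne_bot_of_map_le hPv⟩
  let WQ : HeightOneSpectrum (𝓞 L2) := ⟨Q, hQ, ne_bot_of_map_le hQv⟩
  haveI h1 : WP.asIdeal.LiesOver v2.asIdeal := liesOver_of_map_le hP hPv
  haveI h2 : WQ.asIdeal.LiesOver v2.asIdeal := liesOver_of_map_le hQ hQv
  have h3 := ef_add_le v2 WP WQ hne
  rw [key WP h1, key WQ h2, hdeg] at h3
  obtain ⟨n, hn⟩ := hodd
  omega

end

end Pool.Agent.H10.Q
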