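import Pool.Agent.H10.Q.Uniq

/-!
The quadratic step for the condition that two is unramified.
-/

set_option autoImplicit false
set_option linter.style.haveILetI false

open IsDedekindDomain NumberField WithZero Polynomial

namespace Pool.Agent.H10.Q

/-- two is unramified -/
def Unr2 (F : Type*) [Field F] [NumberField F] : Prop :=
  ∀ w : HeightOneSpectrum (𝓞 F), (2 : 𝓞 F) ∈ w.asIdeal → (2 : 𝓞 F) ∉ w.asIdeal ^ 2

section

variable {F E : Type*} [Field F] [NumberField F] [Field E] [NumberField E] [Algebra F E]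

lemma Unr2.down (h : Unr2 E) : Unr2 F := by
  intro w hw hw2
  obtain ⟨W, hW⟩ := exists_above (E := E) w
  have hm := map_le_of_liesOver w W
  have h1 : (2 : 𝓞 E) ∈ W.asIdeal := by
    have := hm (Ideal.mem_map_of_mem _ hw)
    rwa [map_ofNat] at this
  apply h W h1
  have h2 : (w.asIdeal ^ 2).map (algebraMap (𝓞 F) (𝓞 E)) ≤ W.asIdeal ^ 2 := by
    rw [Ideal.map_pow]
    exact Ideal.pow_right_mono hm 2
  have := h2 (Ideal.mem_map_of_mem _ hw2)
  rwa [map_ofNat] at this

/-- a prime at which a generator `y` with `y^2 = A y + B` has `2 y - A` a unit is unramified -/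
theorem ram_one' (h : Module.finrank F E = 2) {y : 𝓞 E} {A B : 𝓞 F}
    (hy : y ^ 2 = algebraMap (𝓞 F) (𝓞 E) A * y + algebraMap (𝓞 F) (𝓞 E) B)
    (hyF : ∀ z : F, algebraMap F E z ≠ (y : E))
    (w : HeightOneSpectrum (𝓞 F)) (W : HeightOneSpectrum (𝓞 E)) [hWw : W.asIdeal.LiesOver w.asIdeal]
    (hw : 2 * y - algebraMap (𝓞 F) (𝓞 E) A ∉ W.asIdeal) : w.asIdeal.ramificationIdx' W.asIdeal = 1 := by
  by_contra hne
  rw [← Ne, Ideal.ramificationIdx'_ne_one_iff (map_le_of_liesOver w W)] at hne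
  haveI := w.isPrime.isMaximal w.ne_bot
  have h1 := pow_sub_one_dvd_differentIdeal (𝓞 F) W.asIdeal 2 w.ne_bot (Ideal.dvd_iff_le.mpr hne)
  rw [show 2 - 1 = 1 from rfl, pow_one, Ideal.dvd_iff_le] at h1
  have htop : Algebra.adjoin F {algebraMap (𝓞 E) E y} = ⊤ := by
    rw [eq_top_iff]
    intro x _
    obtain ⟨p, q, hpq⟩ := exists_rep h hyF x
    rw [hpq]
    exact Subalgebra.add_mem _ (Subalgebra.algebraMap_mem _ _)
      (Subalgebra.mul_mem _ (Subalgebra.algebraMap_mem _ _)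
        (Algebra.subset_adjoin (Set.mem_singleton _)))
  have h2 := aeval_derivative_mem_differentIdeal (𝓞 F) F E y htop
  have hint : IsIntegral (𝓞 F) y := Algebra.IsIntegral.isIntegral y
  obtain ⟨q, hq⟩ := minpoly.isIntegrallyClosed_dvd hint (p := X ^ 2 - C A * X - C B) (by
    simp only [map_sub, map_pow, map_mul, aeval_X, aeval_C, hy]
    ring)
  apply hw
  have h4 := congrArg (fun f => aeval y (derivative f)) hq
  simp only [derivative_sub, derivative_X_pow, derivative_C, derivative_mul, map_mul, map_sub,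
    map_add, minpoly.aeval, zero_mul, add_zero, zero_add, map_pow, aeval_X, aeval_C, derivative_X,
    sub_zero, map_one, mul_one] at h4
  have h5 : (2 : 𝓞 E) * y - algebraMap (𝓞 F) (𝓞 E) A =
      aeval y (derivative (minpoly (𝓞 F) y)) * aeval y q := by
    rw [← h4, map_natCast]
    norm_num
  rw [h5]
  exact Ideal.mul_mem_right _ _ (h1 h2)

/-- the square of an element satisfies the condition modulo four -/
lemma sq4_sq {w : HeightOneSpectrum (𝓞 F)} (hw : (2 : 𝓞 F) ∈ w.asIdeal)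
    (h2 : (2 : 𝓞 F) ∉ w.asIdeal ^ 2) {x : F} (hx : x ≠ 0) : Sq4 w (x ^ 2) := by
  have hv2 := val_two_of_unram hw h2
  have hxv := (Valuation.ne_zero_iff (w.valuation F)).mpr hx
  refine ⟨2 ^ (log (w.valuation F x)), x * 2 ^ (log (w.valuation F x)), zpow_ne_zero _ two_ne_zero,
    ?_, ?_⟩
  · rw [map_mul, map_zpow₀, hv2, ← exp_zsmul]
    conv_lhs => rw [← exp_log hxv]
    rw [← exp_add, ← exp_zero]
    congr 1
    simp
  · rw [mul_pow, sub_self, map_zero]
    exact zero_le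

lemma sq4_up (w : HeightOneSpectrum (𝓞 F)) (W : HeightOneSpectrum (𝓞 E))
    [W.asIdeal.LiesOver w.asIdeal] {x : F} (h : Sq4 w x) : Sq4 W (algebraMap F E x) := by
  obtain ⟨t, m, ht, hm, hle⟩ := h
  refine ⟨algebraMap F E t, algebraMap F E m, by rwa [Ne, map_eq_zero], ?_, ?_⟩
  · rw [← val_above w W, hm, one_pow]
  · have e1 : algebraMap F E x * algebraMap F E t ^ 2 - algebraMap F E m ^ 2 =
        algebraMap F E (x * t ^ 2 - m ^ 2) := by
      rw [map_sub, map_mul, map_pow, map_pow]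
    have e2 : (4 : E) = algebraMap F E 4 := (map_ofNat (algebraMap F E) 4).symm
    rw [e1, e2, ← val_above w W, ← val_above w W]
    exact pow_le_pow_left' hle _

/-- adjoining the square root of an element which is a square modulo four -/
theorem unr_of_sq4 (h : Module.finrank F E = 2) {d : E} {D : F} (hd : d ^ 2 = algebraMap F E D)
    (hdF : ∀ z : F, algebraMap F E z ≠ d) (w : HeightOneSpectrum (𝓞 F))
    (W : HeightOneSpectrum (𝓞 E)) [hWw : W.asIdeal.LiesOver w.asIdeal]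
    (h2 : (2 : 𝓞 F) ∈ w.asIdeal) (h4 : Sq4 w D) :
    w.asIdeal.ramificationIdx' W.asIdeal = 1 := by
  obtain ⟨t, m, ht, hm, hle⟩ := h4
  have h40 : w.valuation F 4 ≠ 0 := (Valuation.ne_zero_iff _).mpr (by norm_num)
  set c := (D * t ^ 2 - m ^ 2) / 4 with hc
  have hc1 : w.valuation F c ≤ 1 := by
    rw [hc, map_div₀]
    exact div_le_one_of_le₀ hle zero_le
  obtain ⟨n1, ⟨d1, hd1⟩, hnd1⟩ := HeightOneSpectrum.exists_primeCompl_mul_eq_of_integer w m hm.le
  obtain ⟨n2, ⟨d2, hd2⟩, hnd2⟩ := HeightOneSpectrum.exists_primeCompl_mul_eq_of_integer w c hc1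
  change d1 ∉ w.asIdeal at hd1
  change d2 ∉ w.asIdeal at hd2
  change m * algebraMap (𝓞 F) F d1 = algebraMap (𝓞 F) F n1 at hnd1
  change c * algebraMap (𝓞 F) F d2 = algebraMap (𝓞 F) F n2 at hnd2
  -- `r = d1 d2`, `A = r m = d2 n1`, `B = r^2 c = d1^2 d2 n2`
  set A : 𝓞 F := d2 * n1 with hA
  set B : 𝓞 F := d1 ^ 2 * d2 * n2 with hB
  obtain ⟨r, hr⟩ : ∃ r : F, r = algebraMap (𝓞 F) F d1 * algebraMap (𝓞 F) F d2 := ⟨_, rfl⟩
  have hd10 : algebraMap (𝓞 F) F d1 ≠ 0 := by
    intro h0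
    apply hd1
    have : d1 = 0 := by
      apply RingOfIntegers.coe_injective
      exact h0.trans (map_zero (algebraMap (𝓞 F) F)).symm
    rw [this]
    exact w.asIdeal.zero_mem
  have hd20 : algebraMap (𝓞 F) F d2 ≠ 0 := by
    intro h0
    apply hd2
    have : d2 = 0 := by
      apply RingOfIntegers.coe_injective
      exact h0.trans (map_zero (algebraMap (𝓞 F) F)).symm
    rw [this]
    exact w.asIdeal.zero_mem
  have hr0 : r ≠ 0 := by rw [hr]; exact mul_ne_zero hd10 hd20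
  have hAm : algebraMap (𝓞 F) F A = r * m := by
    rw [hA, map_mul, ← hnd1, hr]; ring
  have hBc : algebraMap (𝓞 F) F B = r ^ 2 * c := by
    rw [hB, map_mul, map_mul, map_pow, ← hnd2, hr]; ring
  have hcE : algebraMap F E c = (d ^ 2 * algebraMap F E t ^ 2 - algebraMap F E m ^ 2) / 4 := by
    rw [hc, map_div₀, map_sub, map_mul, map_pow, map_pow, ← hd, map_ofNat]
  -- the generator
  obtain ⟨y, hy⟩ : ∃ y : E, y = algebraMap F E r * ((algebraMap F E m + algebraMap F E t * d) / 2) :=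
    ⟨_, rfl⟩
  have hyy : y ^ 2 = algebraMap F E (algebraMap (𝓞 F) F A) * y + algebraMap F E (algebraMap (𝓞 F) F B) := by
    rw [hAm, hBc, map_mul, map_mul, map_pow, hcE, hy]
    ring
  have hyint : IsIntegral (𝓞 F) y := by
    refine ⟨X ^ 2 - (C A * X + C B), ?_, ?_⟩
    · apply Polynomial.monic_X_pow_sub
      exact lt_of_le_of_lt Polynomial.degree_linear_le (by exact_mod_cast Nat.one_lt_two)
    · rw [eval₂_sub, eval₂_pow, eval₂_X, eval₂_add, eval₂_mul, eval₂_C, eval₂_X, eval₂_C, hyy,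
        IsScalarTower.algebraMap_apply (𝓞 F) F E A, IsScalarTower.algebraMap_apply (𝓞 F) F E B]
      ring
  have hyZ : IsIntegral ℤ y := isIntegral_trans (A := 𝓞 F) y hyint
  obtain ⟨y', hy'⟩ : ∃ y' : 𝓞 E, (y' : E) = y := ⟨⟨y, hyZ⟩, rfl⟩
  have htE : algebraMap F E t ≠ 0 := by rwa [Ne, map_eq_zero]
  have hrE : algebraMap F E r ≠ 0 := by rwa [Ne, map_eq_zero]
  have hyF : ∀ z : F, algebraMap F E z ≠ (y' : E) := by
    intro z hz
    rw [hy', hy] at hz
    apply hdF ((2 * z / r - m) / t)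
    rw [map_div₀, map_sub, map_div₀, map_mul, map_ofNat, hz]
    field_simp
    ring
  have hyO : y' ^ 2 = algebraMap (𝓞 F) (𝓞 E) A * y' + algebraMap (𝓞 F) (𝓞 E) B := by
    apply RingOfIntegers.coe_injective
    rw [map_pow, map_add, map_mul]
    change (y' : E) ^ 2 = algebraMap F E (algebraMap (𝓞 F) F A) * (y' : E) +
      algebraMap F E (algebraMap (𝓞 F) F B)
    rw [hy', hyy]
  refine ram_one' h hyO hyF w W ?_
  -- the derivative is `r t d`, a unit
  have h4lt : w.valuation F 4 < 1 := by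
    have h1 : (4 : 𝓞 F) ∈ w.asIdeal := by
      have : (4 : 𝓞 F) = 2 * 2 := by norm_num
      rw [this]; exact Ideal.mul_mem_left _ _ h2
    have h3 := (w.valuation_lt_one_iff_mem (K := F) (4 : 𝓞 F)).mpr h1
    have e4 : ((4 : 𝓞 F) : F) = 4 := map_ofNat (algebraMap (𝓞 F) F) 4
    rwa [← e4]
  have hDt : w.valuation F (D * t ^ 2) = 1 := by
    have e : D * t ^ 2 = (D * t ^ 2 - m ^ 2) + m ^ 2 := by ring
    rw [e, Valuation.map_add_eq_of_lt_right, map_pow, hm, one_pow]
    rw [map_pow, hm, one_pow]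
    exact hle.trans_lt h4lt
  have hrv : w.valuation F r = 1 := by
    rw [hr, map_mul, (w.valuation_eq_one_iff_notMem (K := F)).mpr hd1,
      (w.valuation_eq_one_iff_notMem (K := F)).mpr hd2, one_mul]
  have hW : W.valuation E (algebraMap F E r * (algebraMap F E t * d)) = 1 := by
    have h5 : W.valuation E ((algebraMap F E r * (algebraMap F E t * d)) ^ 2) = 1 := by
      have e : (algebraMap F E r * (algebraMap F E t * d)) ^ 2 = algebraMap F E (r ^ 2 * (D * t ^ 2)) := by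
        rw [map_mul, map_mul, map_pow, map_pow, ← hd]; ring
      rw [e, ← val_above w W, map_mul, hDt, map_pow, hrv]
      simp
    rw [map_pow] at h5
    exact (pow_eq_one_iff_of_nonneg zero_le two_ne_zero).mp h5
  have e : ((2 * y' - algebraMap (𝓞 F) (𝓞 E) A : 𝓞 E) : E) =
      algebraMap F E r * (algebraMap F E t * d) := by
    have e1 : ((2 * y' - algebraMap (𝓞 F) (𝓞 E) A : 𝓞 E) : E) =
        (algebraMap (𝓞 E) E 2) * (y' : E) - algebraMap F E (algebraMap (𝓞 F) F A) := by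
      change algebraMap (𝓞 E) E (2 * y' - algebraMap (𝓞 F) (𝓞 E) A) = _
      rw [map_sub, map_mul]
      rfl
    rw [e1, map_ofNat, hy', hy, hAm, map_mul]
    ring
  rw [← W.valuation_eq_one_iff_notMem (K := E)]
  change W.valuation E ((2 * y' - algebraMap (𝓞 F) (𝓞 E) A : 𝓞 E) : E) = 1
  rw [e, hW]

end

section

variable {K L K2 L2 : Type*} [Field K] [NumberField K] [Field L] [NumberField L] [Field K2]
  [NumberField K2] [Field L2] [NumberField L2] [Algebra K L] [Algebra K K2] [Algebra L L2]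
  [Algebra K2 L2] [Algebra K L2] [IsScalarTower K L L2] [IsScalarTower K K2 L2]

/-- the quadratic step for `Unr2` -/
theorem unr_step (fL : Module.finrank L L2 = 2) {d : K2} {D : K} (hd : d ^ 2 = algebraMap K K2 D)
    (hdL : ∀ y : L, algebraMap L L2 y ≠ algebraMap K2 L2 d) (h1 : Unr2 K2) (h2 : Unr2 L) :
    Unr2 L2 := by
  intro W hW hW2
  let w : HeightOneSpectrum (𝓞 L) := ⟨W.asIdeal.under (𝓞 L), inferInstance,
    Ideal.IsIntegral.comap_ne_bot _ W.ne_bot⟩
  haveI hWw : W.asIdeal.LiesOver w.asIdeal := ⟨rfl⟩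
  let v : HeightOneSpectrum (𝓞 K) := ⟨w.asIdeal.under (𝓞 K), inferInstance,
    Ideal.IsIntegral.comap_ne_bot _ w.ne_bot⟩
  haveI hwv : w.asIdeal.LiesOver v.asIdeal := ⟨rfl⟩
  have hw2 : (2 : 𝓞 L) ∈ w.asIdeal := by
    change algebraMap (𝓞 L) (𝓞 L2) 2 ∈ W.asIdeal
    rwa [map_ofNat]
  have hv2 : (2 : 𝓞 K) ∈ v.asIdeal := by
    change algebraMap (𝓞 K) (𝓞 L) 2 ∈ w.asIdeal
    rwa [map_ofNat]
  have hd0 : d ≠ 0 := by
    rintro rfl
    exact hdL 0 (by rw [map_zero, map_zero])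
  -- the condition modulo four over `K`
  obtain ⟨V, hV⟩ := exists_above (E := K2) v
  have hV2 : (2 : 𝓞 K2) ∈ V.asIdeal := by
    have := map_le_of_liesOver v V (Ideal.mem_map_of_mem _ hv2)
    rwa [map_ofNat] at this
  have h4 : Sq4 v D := by
    apply sq4_descend v V hV2 (h1 V hV2)
    rw [← hd]
    exact sq4_sq hV2 (h1 V hV2) hd0
  have h4' : Sq4 w (algebraMap K L D) := sq4_up v w h4
  have hram := unr_of_sq4 fL (d := algebraMap K2 L2 d) (D := algebraMap K L D) (by
    rw [← map_pow, hd, ← IsScalarTower.algebraMap_apply K L L2,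
      ← IsScalarTower.algebraMap_apply K K2 L2]) hdL w W hw2 h4'
  have h5 := val_two_of_unram hw2 (h2 w hw2)
  have h6 := val_above w W (2 : L)
  rw [hram, pow_one, h5, map_ofNat (algebraMap L L2)] at h6
  rw [← W.intValuation_le_pow_iff_mem] at hW2
  have e2 : algebraMap (𝓞 L2) L2 2 = 2 := map_ofNat (algebraMap (𝓞 L2) L2) 2
  have h7 : W.valuation L2 2 ≤ exp (-(2 : ℤ)) := by
    rw [← e2, W.valuation_of_algebraMap]
    exact hW2
  rw [← h6, exp_le_exp] at h7
  omega

end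

end Pool.Agent.H10.Q
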