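import Pool.Agent.H10.Q.Hilb
import Pool.Agent.H10.RelVal

/-!
Valuations in quadratic extensions.
-/

set_option autoImplicit false
set_option linter.style.haveILetI false

open IsDedekindDomain NumberField Polynomial

namespace Pool.Agent.H10.Q

section

variable {F E : Type*} [Field F] [NumberField F] [Field E] [NumberField E] [Algebra F E]

lemma exists_above (w : HeightOneSpectrum (𝓞 F)) :
    ∃ W : HeightOneSpectrum (𝓞 E), W.asIdeal.LiesOver w.asIdeal := by
  haveI := w.isPrime.isMaximal w.ne_bot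
  obtain ⟨Q, hQ, hQo⟩ := Ideal.exists_maximal_ideal_liesOver_of_isIntegral (S := 𝓞 E) w.asIdeal
  exact ⟨⟨Q, hQ.isPrime, Ideal.ne_bot_of_liesOver_of_ne_bot w.ne_bot Q⟩, hQo⟩

lemma val_above (w : HeightOneSpectrum (𝓞 F)) (W : HeightOneSpectrum (𝓞 E))
    [W.asIdeal.LiesOver w.asIdeal] (x : F) :
    w.valuation F x ^ (w.asIdeal.ramificationIdx' W.asIdeal) = W.valuation E (algebraMap F E x) :=
  HeightOneSpectrum.valuation_liesOver E w W x

lemma ram_ne_zero (w : HeightOneSpectrum (𝓞 F)) (W : HeightOneSpectrum (𝓞 E))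
    [W.asIdeal.LiesOver w.asIdeal] : w.asIdeal.ramificationIdx' W.asIdeal ≠ 0 :=
  Ideal.IsDedekindDomain.ramificationIdx'_ne_zero_of_liesOver W.asIdeal w.ne_bot

lemma map_le_of_liesOver (w : HeightOneSpectrum (𝓞 F)) (W : HeightOneSpectrum (𝓞 E))
    [h : W.asIdeal.LiesOver w.asIdeal] :
    w.asIdeal.map (algebraMap (𝓞 F) (𝓞 E)) ≤ W.asIdeal := by
  rw [Ideal.map_le_iff_le_comap]
  exact le_of_eq h.over

/-- a prime prime to `2 δ` is unramified in the extension by `√δ` -/
theorem ram_one (h : Module.finrank F E = 2) {d : 𝓞 E} {δ : 𝓞 F}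
    (hd : d ^ 2 = algebraMap (𝓞 F) (𝓞 E) δ) (hdF : ∀ y : F, algebraMap F E y ≠ (d : E))
    (w : HeightOneSpectrum (𝓞 F)) (W : HeightOneSpectrum (𝓞 E)) [hWw : W.asIdeal.LiesOver w.asIdeal]
    (hw : 2 * δ ∉ w.asIdeal) : w.asIdeal.ramificationIdx' W.asIdeal = 1 := by
  by_contra hne
  rw [← Ne, Ideal.ramificationIdx'_ne_one_iff (map_le_of_liesOver w W)] at hne
  haveI := w.isPrime.isMaximal w.ne_bot
  have h1 := pow_sub_one_dvd_differentIdeal (𝓞 F) W.asIdeal 2 w.ne_bot (Ideal.dvd_iff_le.mpr hne)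
  rw [show 2 - 1 = 1 from rfl, pow_one, Ideal.dvd_iff_le] at h1
  have htop : Algebra.adjoin F {algebraMap (𝓞 E) E d} = ⊤ := by
    rw [eq_top_iff]
    intro x _
    obtain ⟨p, q, hpq⟩ := exists_rep h hdF x
    rw [hpq]
    exact Subalgebra.add_mem _ (Subalgebra.algebraMap_mem _ _)
      (Subalgebra.mul_mem _ (Subalgebra.algebraMap_mem _ _)
        (Algebra.subset_adjoin (Set.mem_singleton _)))
  have h2 := aeval_derivative_mem_differentIdeal (𝓞 F) F E d htop
  have hint : IsIntegral (𝓞 F) d := Algebra.IsIntegral.isIntegral d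
  obtain ⟨q, hq⟩ := minpoly.isIntegrallyClosed_dvd hint (p := X ^ 2 - C δ) (by
    rw [map_sub, map_pow, aeval_X, aeval_C, hd, sub_self])
  have h3 : (2 : 𝓞 E) * d ∈ W.asIdeal := by
    have h4 := congrArg (fun f => aeval d (derivative f)) hq
    simp only [derivative_sub, derivative_X_pow, derivative_C, sub_zero, derivative_mul, map_mul,
      map_add, minpoly.aeval, zero_mul, add_zero, map_pow, aeval_X] at h4
    have h5 : (2 : 𝓞 E) * d = aeval d (derivative (minpoly (𝓞 F) d)) * aeval d q := by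
      rw [← h4, aeval_C, map_natCast]
      norm_num
    rw [h5]
    exact Ideal.mul_mem_right _ _ (h1 h2)
  have h4 : algebraMap (𝓞 F) (𝓞 E) (2 * δ) ∈ W.asIdeal := by
    have h5 : algebraMap (𝓞 F) (𝓞 E) (2 * δ) * 2 = (2 * d) * (2 * d) := by
      rw [map_mul, ← hd, map_ofNat]
      ring
    have h6 : algebraMap (𝓞 F) (𝓞 E) (2 * δ) * 2 ∈ W.asIdeal := by
      rw [h5]; exact Ideal.mul_mem_left _ _ h3
    rcases W.isPrime.mem_or_mem h6 with h7 | h7
    · exact h7
    · rw [map_mul, map_ofNat]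
      exact Ideal.mul_mem_right _ _ h7
  apply hw
  rw [hWw.over]
  exact h4

end

end Pool.Agent.H10.Q
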